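import Mathlib
import Pool.Agent.Q51.UF.Mult
import Pool.Agent.Q51.UF.ExcK

set_option autoImplicit false
set_option linter.unusedSectionVars false

/-!
# Bounded multipliers, uniformly for all members of a family that contain no curves

The members of the family belong to an arbitrary set of parameters; it is only assumed that the
members with parameters in this set contain no nonconstant curve over `Qbar` itself.
-/

namespace Pool.Agent.Q51.UV

open Finset NumberField Height Module Filter MvPolynomial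
open Pool.Agent.Helper259.AbsHt Pool.Agent.H533R3.SL Pool.Agent.Y215.SP Pool.Agent.Y215.SK
open Pool.Agent.Y215.AF (hA)
open Pool.Agent.Q51.UF (fam spc fam_map spc_comp eval_fam_gm)
open Pool.Agent.Q51.UF.K (map_aeval_cur map_cur)

variable {n N r : ℕ} {A : Type}

/-- **Transfer of the condition on the curves to the field of germs.** -/
theorem los_curves (P : Fin N → MvPolynomial (Fin (n + 1)) (MvPolynomial A ℤ))
    (G : MvPolynomial (Fin (n + 1)) (MvPolynomial A ℤ)) (T : Set (Fin r × Fin (n + 1)))
    (a : ℕ → A → Qbar)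
    (h : ∀ (t : ℕ) (c : Fin r → Fin (n + 1) → Qbar) (l : Fin r → ℕ),
        (∀ j i, (j, i) ∉ T → c j i = 0) →
        (∀ i, MvPolynomial.aeval (cur c l) (fam (a t) (P i)) = 0) →
        (∃ i i', cur c l i * Polynomial.C (∑ j, c j i') ≠
          cur c l i' * Polynomial.C (∑ j, c j i)) →
        eval (fun i => ∑ j, c j i) (fam (a t) G) = 0)
    (c : Fin r → Fin (n + 1) → GQ) (l : Fin r → ℕ) (hT : ∀ j i, (j, i) ∉ T → c j i = 0)
    (hz : ∀ i, MvPolynomial.aeval (cur c l) (fam (fun α => gm (fun t => a t α)) (P i)) = 0)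
    (hne : ∃ i i', cur c l i * Polynomial.C (∑ j, c j i') ≠
          cur c l i' * Polynomial.C (∑ j, c j i)) :
    eval (fun i => ∑ j, c j i) (fam (fun α => gm (fun t => a t α)) G) = 0 := by
  classical
  choose c0 hc0 using fun j i => gm_surj (c j i)
  let cR : Fin r → Fin (n + 1) → (ℕ → Qbar) := fun j i => if (j, i) ∈ T then c0 j i else 0
  have hcR : ∀ j i, gm (cR j i) = c j i := by
    intro j i
    by_cases h1 : (j, i) ∈ T
    · show gm (if (j, i) ∈ T then c0 j i else 0) = c j i
      rw [if_pos h1, hc0]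
    · show gm (if (j, i) ∈ T then c0 j i else 0) = c j i
      rw [if_neg h1, hT j i h1]
      rfl
  have hcT : ∀ t j i, (j, i) ∉ T → cR j i t = 0 := by
    intro t j i h1
    show (if (j, i) ∈ T then c0 j i else 0) t = 0
    rw [if_neg h1]
    rfl
  let gR : (ℕ → Qbar) →+* GQ := Germ.coeRingHom (UU : Filter ℕ)
  have hg : ∀ b : ℕ → Qbar, gR b = gm b := fun _ => rfl
  let ev : ∀ t : ℕ, (ℕ → Qbar) →+* Qbar := fun t => Pi.evalRingHom (fun _ : ℕ => Qbar) t
  let aR : A → (ℕ → Qbar) := fun α t => a t α
  have e1 : (fun j i => gR (cR j i)) = c := by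
    funext j i
    exact hcR j i
  -- the equations
  have hQ : ∀ i, ∀ᶠ t in (UU : Filter ℕ),
      MvPolynomial.aeval (cur (fun j i => cR j i t) l) (fam (a t) (P i)) = 0 := by
    intro i
    let Q : Polynomial (ℕ → Qbar) := MvPolynomial.aeval (cur cR l) (fam aR (P i))
    have h1 : Polynomial.map gR Q = 0 := by
      rw [map_aeval_cur, fam_map, e1]
      exact hz i
    have h2 : ∀ᶠ t in (UU : Filter ℕ), ∀ w ∈ Finset.range (Q.natDegree + 1), Q.coeff w t = 0 := by
      rw [Filter.eventually_all_finset]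
      intro w _
      have h3 := congrArg (fun p => Polynomial.coeff p w) h1
      simp only [Polynomial.coeff_map, Polynomial.coeff_zero] at h3
      rw [hg] at h3
      exact gm_eq_zero.1 h3
    filter_upwards [h2] with t ht
    have h4 : Polynomial.map (ev t) Q = 0 := by
      ext w
      rw [Polynomial.coeff_map, Polynomial.coeff_zero]
      by_cases hw : w ∈ Finset.range (Q.natDegree + 1)
      · exact ht w hw
      · rw [Polynomial.coeff_eq_zero_of_natDegree_lt, map_zero]
        rw [Finset.mem_range] at hw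
        omega
    rw [map_aeval_cur, fam_map] at h4
    exact h4
  obtain ⟨i1, i2, hi⟩ := hne
  have hW : ∀ᶠ t in (UU : Filter ℕ), cur (fun j i => cR j i t) l i1 *
      Polynomial.C (∑ j, cR j i2 t) ≠ cur (fun j i => cR j i t) l i2 *
        Polynomial.C (∑ j, cR j i1 t) := by
    let W : Polynomial (ℕ → Qbar) := cur cR l i1 * Polynomial.C (∑ j, cR j i2) -
      cur cR l i2 * Polynomial.C (∑ j, cR j i1)
    have h1 : ∀ {M : Type} [CommRing M] (s : (ℕ → Qbar) →+* M), Polynomial.map s W =
        cur (fun j i => s (cR j i)) l i1 * Polynomial.C (∑ j, s (cR j i2)) -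
        cur (fun j i => s (cR j i)) l i2 * Polynomial.C (∑ j, s (cR j i1)) := by
      intro M _ s
      simp only [W, Polynomial.map_sub, Polynomial.map_mul, map_cur, map_sum, Polynomial.map_sum,
        Polynomial.map_C]
    have h2 : Polynomial.map gR W ≠ 0 := by
      rw [h1 gR, sub_ne_zero]
      simp only [hg, hcR]
      exact hi
    obtain ⟨w, hw⟩ : ∃ w, (Polynomial.map gR W).coeff w ≠ 0 := by
      by_contra hcon
      push Not at hcon
      exact h2 (Polynomial.ext fun w => by rw [hcon w, Polynomial.coeff_zero])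
    rw [Polynomial.coeff_map, hg, gm_ne_zero] at hw
    filter_upwards [hw] with t ht h3
    have h4 : Polynomial.map (ev t) W = 0 := by
      rw [h1 (ev t), sub_eq_zero]
      exact h3
    have h5 := congrArg (fun p => Polynomial.coeff p w) h4
    simp only [Polynomial.coeff_map, Polynomial.coeff_zero] at h5
    exact ht h5
  have hall : ∀ᶠ t in (UU : Filter ℕ), ∀ i,
      MvPolynomial.aeval (cur (fun j i => cR j i t) l) (fam (a t) (P i)) = 0 := by
    rw [Filter.eventually_all]
    exact hQ
  have hfin : ∀ᶠ t in (UU : Filter ℕ), eval (fun i => ∑ j, cR j i t) (fam (a t) G) = 0 := by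
    filter_upwards [hall, hW] with t h1 h2
    exact h t (fun j i => cR j i t) l (fun j i hji => hcT t j i hji) h1 ⟨i1, i2, h2⟩
  have e2 : (fun i => ∑ j, c j i) = fun i => gm (fun t => ∑ j, cR j i t) := by
    funext i
    rw [← gm_sum]
    exact Finset.sum_congr rfl fun j _ => (hcR j i).symm
  have h6 := eval_fam_gm G (fun α t => a t α) (fun i t => ∑ j, cR j i t)
  rw [e2]
  refine h6.trans ?_
  rw [gm_eq_zero]
  exact hfin

/-- **Bounded multipliers, uniformly for all members without curves.** -/
theorem mult_boundS [Finite A]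
    (P : Fin N → MvPolynomial (Fin (n + 1)) (MvPolynomial A ℤ))
    (hP : ∀ i, ∃ e, (P i).IsHomogeneous e)
    (G : MvPolynomial (Fin (n + 1)) (MvPolynomial A ℤ)) (hGh : ∃ e, G.IsHomogeneous e)
    (T : Set (Fin r × Fin (n + 1)))
    (𝒮 : Set (A → Qbar))
    (hG : ∀ a ∈ 𝒮, ∀ (c : Fin r → Fin (n + 1) → Qbar) (l : Fin r → ℕ),
        (∀ j i, (j, i) ∉ T → c j i = 0) →
        (∀ i, MvPolynomial.aeval (cur c l) (fam a (P i)) = 0) →
        (∃ i i', cur c l i * Polynomial.C (∑ j, c j i') ≠
          cur c l i' * Polynomial.C (∑ j, c j i)) →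
        eval (fun i => ∑ j, c j i) (fam a G) = 0)
    (Γ : Subgroup Qbarˣ) (hΓ : Γ.FG) :
    ∃ C : ℝ, ∀ a ∈ 𝒮, ∀ (u : Fin r → Qbarˣ) (V : Fin r → Fin (n + 1) → Qbar),
      (∀ j i, (j, i) ∉ T → V j i = 0) →
      (∀ j, u j ∈ DivHull Γ) →
      OnOff (fun i => fam a (P i)) (fam a G) (psum Finset.univ u V) →
      ∃ J : Finset (Fin r), Good J u V ∧
        absLogHeight (fun j : J => (u j : Qbar)) ≤ C * (1 + hA a + hV V) := by
  classical
  by_contra hcon
  push Not at hcon
  have hA0 : ∀ a : A → Qbar, 0 ≤ hA a := fun a => absLogHeight_nonneg _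
  have hcon2 : ∀ t : ℕ, ∃ (a : A → Qbar) (u : Fin r → Qbarˣ) (V : Fin r → Fin (n + 1) → Qbar)
      (ℓ : ℝ), a ∈ 𝒮 ∧
      (∀ j i, (j, i) ∉ T → V j i = 0) ∧ (∀ j, u j ∈ DivHull Γ) ∧
      OnOff (fun i => fam a (P i)) (fam a G) (psum Finset.univ u V) ∧
      (∀ J : Finset (Fin r), Good J u V → ℓ ≤ absLogHeight (fun j : J => (u j : Qbar))) ∧
      (∀ j i, (t + 1 : ℝ) * h1 (V j i) ≤ ℓ) ∧ (∀ α, (t + 1 : ℝ) * h1 (a α) ≤ ℓ) ∧
      (t : ℝ) + 1 ≤ ℓ := by
    intro t
    obtain ⟨a, ha𝒮, u, V, hVT, h1, ⟨h2, h3, h4⟩, h5⟩ := hcon (t + 1)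
    have hp0 : ∃ p : Fin r × Fin (n + 1), V p.1 p.2 ≠ 0 := by
      by_contra h
      push Not at h
      apply h2
      funext i
      refine Finset.sum_eq_zero fun j _ => ?_
      rw [h (j, i), mul_zero]
    obtain ⟨p0, hp0⟩ := hp0
    obtain ⟨c, hc⟩ : ∃ c : Qbar, c = (V p0.1 p0.2)⁻¹ := ⟨_, rfl⟩
    have hc0 : c ≠ 0 := by rw [hc]; exact inv_ne_zero hp0
    have hx : psum Finset.univ u (fun j i => c * V j i) =
        fun i => c * psum Finset.univ u V i := by
      funext i
      unfold Pool.Agent.Y215.SK.psum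
      rw [Finset.mul_sum]
      exact Finset.sum_congr rfl fun j _ => by ring
    have hV0 : 0 ≤ hV V := absLogHeight_nonneg _
    have ha0 := hA0 a
    have huniv : Good Finset.univ u V :=
      ⟨fun i b => mul_comm _ _, Function.ne_iff.1 h2⟩
    obtain ⟨J0, hJ0, hmin⟩ := Finset.exists_min_image
      (Finset.univ.filter (fun J : Finset (Fin r) => Good J u V))
      (fun J => absLogHeight (fun j : J => (u j : Qbar))) ⟨_, by simpa using huniv⟩
    rw [Finset.mem_filter] at hJ0
    have h6 := h5 J0 hJ0.2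
    have h8 : (0 : ℝ) < t + 1 := by positivity
    refine ⟨a, u, fun j i => c * V j i, absLogHeight (fun j : J0 => (u j : Qbar)), ha𝒮,
      fun j i hja => by
        show c * V j i = 0
        rw [hVT j i hja, mul_zero], h1, ⟨?_, ?_, ?_⟩,
      ?_, ?_, ?_, ?_⟩
    · rw [hx]
      intro h
      apply h2
      funext i
      have := congrFun h i
      exact (mul_eq_zero.1 this).resolve_left hc0
    · intro i
      obtain ⟨e, he⟩ := hP i
      have he' : (fam a (P i)).IsHomogeneous e := he.map _
      rw [hx, aeval_hom_smul _ he', h3, mul_zero]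
    · obtain ⟨e, he⟩ := hGh
      have he' : (fam a G).IsHomogeneous e := he.map _
      rw [hx, aeval_hom_smul _ he']
      exact mul_ne_zero (pow_ne_zero _ hc0) h4
    · intro J hJ
      exact hmin J (by
        rw [Finset.mem_filter]
        exact ⟨Finset.mem_univ _, good_smul J u V c hJ⟩)
    · intro j i
      have h6' : Pool.Agent.Y215.SK.h1 (c * V j i) ≤ hV V := by
        rw [hc, ← div_eq_inv_mul]
        exact h1_ratio_le (fun p : Fin r × Fin (n + 1) => V p.1 p.2) (j, i) p0 hp0
      have h7 : (t + 1 : ℝ) * Pool.Agent.Y215.SK.h1 (c * V j i) ≤ (t + 1) * hV V :=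
        mul_le_mul_of_nonneg_left h6' (by positivity)
      nlinarith
    · intro α
      have h6' : Pool.Agent.Y215.SK.h1 (a α) ≤ hA a := by
        have h9 := h1_ratio_le (fun o : Option A => o.elim (1 : Qbar) a) (some α) none
          (by simp)
        simpa [hA] using h9
      have h7 : (t + 1 : ℝ) * Pool.Agent.Y215.SK.h1 (a α) ≤ (t + 1) * hA a :=
        mul_le_mul_of_nonneg_left h6' (by positivity)
      nlinarith
    · nlinarith
  choose a u V L ha𝒮 hVT hu hx hmin hVh hah hxh using hcon2
  have hL : Tendsto L atTop atTop := by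
    refine tendsto_atTop_mono (fun t => le_trans (by linarith) (hxh t)) tendsto_natCast_atTop_atTop
  obtain ⟨ρ, D, C0, hD⟩ := exists_grp Γ hΓ
  choose s q hs0 hsh hus using fun (t : ℕ) (j : Fin r) => hD (u t j) (hu t j)
  -- germs
  have hUg : ∀ j, gm (fun t => s t j) * yy D (fun t => q t j) = gm (fun t => (u t j : Qbar)) := by
    intro j
    unfold yy
    rw [gm_mul]
    congr 1
    funext t
    exact (hus t j).symm
  have hJg : ∀ (J : Finset (Fin r)) i,
      ∑ j ∈ J, (gm (fun t => s t j) * yy D (fun t => q t j)) * gm (fun t => V t j i) =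
      gm (fun t => psum J (u t) (V t) i) := by
    intro J i
    simp_rw [hUg, gm_mul]
    rw [gm_sum]
    rfl
  have hsmall : ∀ b : ℕ → Qbar, (∀ t : ℕ, ((t : ℝ) + 1) * h1 (b t) ≤ L t) →
      gm b ∈ KK L hL := by
    intro b hb
    rw [mem_KK]
    intro ε hε
    filter_upwards [ev_of_atTop (Filter.eventually_ge_atTop ⌈1 / ε⌉₊)] with t ht
    have h2 := hb t
    have h3 : 1 / ε ≤ t := (Nat.le_ceil _).trans (by exact_mod_cast ht)
    rw [div_le_iff₀ hε] at h3
    have h4 := h1_nonneg (b t)
    have h5 : 1 ≤ ε * (t + 1) := by nlinarith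
    calc h1 (b t) = 1 * h1 (b t) := (one_mul _).symm
      _ ≤ ε * (t + 1) * h1 (b t) := mul_le_mul_of_nonneg_right h5 h4
      _ = ε * ((t + 1) * h1 (b t)) := by ring
      _ ≤ ε * L t := mul_le_mul_of_nonneg_left h2 hε.le
  -- the parameters
  have hch : CharZero GQ := charZero_of_injective_ringHom (cst : Qbar →+* GQ).injective
  let aK : A → KK L hL := fun α => ⟨gm (fun t => a t α), hsmall _ fun t => hah t α⟩
  have hmapK : ∀ p : MvPolynomial (Fin (n + 1)) (MvPolynomial A ℤ),
      map (algebraMap (KK L hL) GQ) (fam aK p) = fam (fun α => gm (fun t => a t α)) p := by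
    intro p
    rw [fam_map]
    rfl
  obtain ⟨J, j1, hrat, hprop, a1, ha1⟩ := point_block (k := KK L hL) (fun i => fam aK (P i))
    (fun i => (hP i).imp fun e he => he.map _) (fam aK G) D L hL
    (fun b => b.2) q (fun j => gm (fun t => s t j))
    (fun j => mem_KK_of_le _ C0 (Filter.Eventually.of_forall fun t => hsh t j))
    (fun j => gm_ne_zero.2 (Filter.Eventually.of_forall fun t => hs0 t j))
    (fun j i => gm (fun t => V t j i))
    (fun j i => hsmall _ fun t => hVh t j i)
    (fun l h1 h2 => by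
      have h3 := los_curves P G T a (fun t => hG (a t) (ha𝒮 t))
        (fun j i => (gm (fun t => s t j) * yy D (fun t => q t j)) * gm (fun t => V t j i)) l
        (fun j i hja => by
          have h3 : gm (fun t => V t j i) = 0 :=
            gm_eq_zero.2 (Filter.Eventually.of_forall fun t => hVT t j i hja)
          rw [h3, mul_zero]) (fun i => by
          rw [← hmapK, aeval_map_algebraMap]
          exact h1 i) h2
      rw [← hmapK, eval_map, ← aeval_def] at h3
      exact h3)
    (by
      intro i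
      simp_rw [hJg]
      have h3 : aeval (fun i => gm (fun t => psum Finset.univ (u t) (V t) i)) (fam aK (P i)) =
          eval (fun i => gm (fun t => psum Finset.univ (u t) (V t) i))
            (fam (fun α => gm (fun t => a t α)) (P i)) := by
        rw [← hmapK, eval_map, ← aeval_def]
      rw [h3, eval_fam_gm, gm_eq_zero]
      refine Filter.Eventually.of_forall fun t => ?_
      have h4 := (hx t).2.1 i
      rw [aeval_def, ← eval_map] at h4
      simpa using h4)
    (by
      simp_rw [hJg]
      have h3 : aeval (fun i => gm (fun t => psum Finset.univ (u t) (V t) i)) (fam aK G) =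
          eval (fun i => gm (fun t => psum Finset.univ (u t) (V t) i))
            (fam (fun α => gm (fun t => a t α)) G) := by
        rw [← hmapK, eval_map, ← aeval_def]
      rw [h3, eval_fam_gm, gm_ne_zero]
      refine Filter.Eventually.of_forall fun t => ?_
      have h4 := (hx t).2.2
      rw [aeval_def, ← eval_map] at h4
      simpa using h4)
    (by
      simp_rw [hJg]
      intro h
      have h2 : ∀ᶠ t in (UU : Filter ℕ), ∀ i, psum Finset.univ (u t) (V t) i = 0 := by
        rw [Filter.eventually_all]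
        exact fun i => gm_eq_zero.1 (congrFun h i)
      obtain ⟨t, ht⟩ := h2.exists
      exact (hx t).1 (funext ht))
  simp_rw [hJg] at hprop ha1
  simp_rw [hUg] at hrat
  rw [gm_ne_zero] at ha1
  have hgood : ∀ᶠ t in (UU : Filter ℕ), Good J (u t) (V t) := by
    have h2 : ∀ᶠ t in (UU : Filter ℕ), ∀ i b, psum J (u t) (V t) i *
        psum Finset.univ (u t) (V t) b = psum J (u t) (V t) b * psum Finset.univ (u t) (V t) i := by
      rw [Filter.eventually_all]
      intro i
      rw [Filter.eventually_all]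
      intro b
      exact gm_eq.1 (hprop i b)
    filter_upwards [h2, ha1] with t h3 h4
    exact ⟨h3, a1, h4⟩
  have hev : ∀ᶠ t in (UU : Filter ℕ), ∀ j : J, h1 ((u t j : Qbar) / (u t j1 : Qbar)) ≤
      1 / (2 * (r + 1)) * L t := by
    rw [Filter.eventually_all]
    intro j
    have h2 := hrat j j.2
    rw [gm_div, mem_KK] at h2
    exact h2 _ (by positivity)
  obtain ⟨t, ht1, ht2⟩ := (hgood.and hev).exists
  have h2 : L t ≤ r * (1 / (2 * (r + 1)) * L t) := by
    refine (hmin t J ht1).trans ?_
    have h3 := absLogHeight_smul (fun j : J => (u t j : Qbar)) (inv_ne_zero (u t j1).ne_zero)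
    rw [← h3]
    refine (height_le_sum _).trans ?_
    have h4 : ∀ j ∈ (Finset.univ : Finset J),
        h1 ((((u t j1 : Qbar))⁻¹ • fun j : J => (u t j : Qbar)) j) ≤
        1 / (2 * (r + 1)) * L t := by
      intro j _
      rw [Pi.smul_apply, smul_eq_mul, ← div_eq_inv_mul]
      exact ht2 j
    refine (Finset.sum_le_sum h4).trans ?_
    rw [Finset.sum_const, Finset.card_univ, Fintype.card_coe, nsmul_eq_mul]
    have h5 : (J.card : ℝ) ≤ r := by
      have := Finset.card_le_univ J
      rw [Fintype.card_fin] at this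
      exact_mod_cast this
    have h6 : 0 ≤ L t := le_trans (by positivity) (hxh t)
    exact mul_le_mul_of_nonneg_right h5 (by positivity)
  have h3 := hxh t
  have h4 : (0 : ℝ) ≤ t := Nat.cast_nonneg t
  have h5 : (r : ℝ) * (1 / (2 * (r + 1)) * L t) ≤ L t / 2 := by
    have h6 : (0 : ℝ) < r + 1 := by positivity
    have h7 : (r : ℝ) * (1 / (2 * (r + 1)) * L t) = (r / (r + 1)) * (L t / 2) := by
      field_simp
    rw [h7]
    have h8 : (r : ℝ) / (r + 1) ≤ 1 := by
      rw [div_le_one h6]
      linarith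
    have h9 : 0 ≤ L t / 2 := by linarith
    nlinarith
  linarith

end Pool.Agent.Q51.UV
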