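import Mathlib
import Pool.Agent.Q51.UV.Los
import Pool.Agent.Q51.UF.Pairs
import Pool.Agent.Q51.UN.Off

set_option autoImplicit false
set_option linter.unusedSectionVars false

/-!
# All varieties without rational curves, all affine varieties without punctured lines
-/

namespace Pool.Agent.Q51.UV

open Finset NumberField Height Module Filter MvPolynomial
open Pool.Agent.Helper259.AbsHt Pool.Agent.Y215.SK Pool.Agent.Y215.AF Pool.Agent.W235.RM
open Pool.Agent.Q51.HG Pool.Agent.Q51.UF
open Pool.Agent.H533R3.SL (cur)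
open Pool.Agent.Q51.UN (card_nearOff epsU epsU_pos Mx)
open Pool.Agent.Y215.SP (pt)
open Pool.Agent.TH182.VD (CI)

variable {n N r : ℕ}

/-- there is no nonconstant curve with `r` terms on `F = 0` -/
def NoCurve {L : Type} [Field L] (r : ℕ) (F : Fin N → MvPolynomial (Fin (n + 1)) L) : Prop :=
  ∀ (c : Fin r → Fin (n + 1) → L) (l : Fin r → ℕ), (∀ i, aeval (cur c l) (F i) = 0) →
    ∀ i i', cur c l i * Polynomial.C (∑ j, c j i') = cur c l i' * Polynomial.C (∑ j, c j i)

/-- **Heights, all varieties without rational curves.** -/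
theorem proj_heights (d : Fin N → ℕ) (r : ℕ) (Γ : Subgroup Qbarˣ) (hΓ : Γ.FG) :
    ∃ B : ℝ, 0 ≤ B ∧ ∀ (F : Fin N → MvPolynomial (Fin (n + 1)) Qbar)
      (u : Fin r → Qbarˣ) (V : Fin r → Fin (n + 1) → Qbar),
      (∀ i, (F i).IsHomogeneous (d i)) → NoCurve r F → (∀ j, u j ∈ DivHull Γ) →
      psum Finset.univ u V ≠ 0 → (∀ i, aeval (psum Finset.univ u V) (F i) = 0) →
      absLogHeight (psum Finset.univ u V) ≤ B * (1 + hA (cof d F) + hV V) := by
  classical
  obtain ⟨C, hC⟩ := mult_boundS (r := r) (uF n d) (fun i => ⟨d i, uF_homogeneous d i⟩)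
    1 ⟨0, isHomogeneous_one _ _⟩ Set.univ {a | NoCurve r (fun i => fam a (uF n d i))}
    (fun a ha c l _ hz hne => by
      obtain ⟨i, i', hi⟩ := hne
      exact absurd (ha c l hz i i') hi) Γ hΓ
  refine ⟨|C| + (r + 1) + 1, by positivity, fun F u V hF hno hu hx0 hx => ?_⟩
  have hsys : (fun i => fam (cof d F) (uF n d i)) = F := by
    funext i
    exact fam_uF d F hF i
  obtain ⟨J, hJ, hh⟩ := hC (cof d F) (by
      show NoCurve r (fun i => fam (cof d F) (uF n d i))
      rw [hsys]
      exact hno) u V (fun j a h => absurd (Set.mem_univ _) h) hu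
    ⟨hx0, by rw [hsys]; exact hx, by
      unfold fam
      rw [map_one, map_one]
      exact one_ne_zero⟩
  obtain ⟨c, hc, hc2⟩ := good_prop J u V hJ hx0
  have h3 := psum_height J u V
  rw [hc2, absLogHeight_smul _ hc] at h3
  have h6 : 0 ≤ hV V := absLogHeight_nonneg _
  have h6' := hA_cof_nonneg d F
  have h7 : C * (1 + hA (cof d F) + hV V) ≤ |C| * (1 + hA (cof d F) + hV V) :=
    mul_le_mul_of_nonneg_right (le_abs_self C) (by linarith)
  have h8 : (0 : ℝ) ≤ r := Nat.cast_nonneg r
  nlinarith [mul_nonneg h8 h6, mul_nonneg h8 h6']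

/-- **Number of points, all varieties without rational curves.** -/
theorem proj_count (Γ : Subgroup Qbarˣ) (hΓ : Γ.FG) (d r : ℕ) (hd : 1 ≤ d) :
    ∃ M : ℕ, ∀ (n N : ℕ) (L : Type) [Field L] (ι : Qbar →+* L)
      (F : Fin N → MvPolynomial (Fin (n + 1)) L) (_ : ∀ i, ∃ e, e ≤ d ∧ (F i).IsHomogeneous e)
      (_ : NoCurve r F) (V : Fin r → Fin (n + 1) → L),
      (UN.nearOff ι F 1 Γ (epsU d r / d) V).encard ≤ (M : ℕ∞) := by
  obtain ⟨M, hM⟩ := card_nearOff Γ hΓ d r hd
  refine ⟨M, fun n N L _ ι F hF hno V => hM n N L ι F hF 1 Set.univ (fun c l _ hz hne => ?_) V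
    (fun j a h => absurd (Set.mem_univ _) h)⟩
  obtain ⟨i, i', hi⟩ := hne
  exact absurd (hno c l hz i i') hi

/-! ### Affine varieties -/

/-- there is no nonconstant curve `t ↦ ∑ c_j t ^ (l_j - l_0)` with `r` terms on `f = 0` -/
def NoCurveA {L : Type} [Field L] (r d : ℕ) (f : Fin N → MvPolynomial (Fin n) L) : Prop :=
  ∀ (c : Fin r → Fin n → L) (l : Fin (r + 1) → ℕ), (∀ i, aeval (cur (homC c) l) (hmg d (f i)) = 0) →
    ∀ i i', cur (homC c) l i * Polynomial.C (∑ j, homC c j i') =
      cur (homC c) l i' * Polynomial.C (∑ j, homC c j i)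

theorem patternL {L : Type} [Field L] (d : ℕ) (f : Fin N → MvPolynomial (Fin n) L)
    (hd : ∀ i, (f i).totalDegree ≤ d) (hno : NoCurveA r d f)
    (c : Fin (r + 1) → Fin (n + 1) → L) (l : Fin (r + 1) → ℕ)
    (hT : ∀ j a, (j, a) ∉ TT r n → c j a = 0)
    (hz : ∀ i, MvPolynomial.aeval (cur c l) (hmg d (f i)) = 0)
    (hc : ∃ i i', cur c l i * Polynomial.C (∑ j, c j i') ≠
          cur c l i' * Polynomial.C (∑ j, c j i)) : ∑ j, c j 0 = 0 := by
  by_contra hne
  have hc0 : ∑ j, c j 0 = c 0 0 := by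
    refine Finset.sum_eq_single 0 (fun j _ hj => hT j 0 ?_) (fun h => absurd (Finset.mem_univ _) h)
    rintro (h | h)
    · exact hj (congrArg Prod.fst h)
    · exact h.2 rfl
  rw [hc0] at hne
  obtain ⟨s, hs⟩ : ∃ s, s = c 0 0 := ⟨_, rfl⟩
  have hp := pattern_eq c hT hne
  rw [← hs] at hp hne
  obtain ⟨c', hc'⟩ : ∃ c' : Fin r → Fin n → L,
    c' = fun j a => c (Fin.succ j) (Fin.succ a) / s := ⟨_, rfl⟩
  rw [← hc'] at hp
  have hcur : cur c l = fun i => Polynomial.C s * cur (homC c') l i := by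
    funext i
    have h1 := cur_smul s (homC c') l i
    rw [← hp] at h1
    exact h1
  have hsum : ∀ i, ∑ j, c j i = s * ∑ j, homC c' j i := by
    intro i
    rw [Finset.mul_sum]
    refine Finset.sum_congr rfl fun j _ => ?_
    exact congrFun (congrFun hp j) i
  have hCs : (Polynomial.C s : Polynomial L) ≠ 0 := Polynomial.C_ne_zero.2 hne
  obtain ⟨i, i', h3⟩ := hc
  have h4 := hno c' l (fun i => by
    have h2 := hz i
    rw [hcur, aeval_hom_smul _ (hmg_homog d (f i) (hd i))] at h2
    exact (mul_eq_zero.1 h2).resolve_left (pow_ne_zero _ hCs)) i i'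
  apply h3
  rw [hcur, hsum, hsum, Polynomial.C_mul, Polynomial.C_mul]
  show Polynomial.C s * cur (homC c') l i * _ = Polynomial.C s * cur (homC c') l i' * _
  linear_combination Polynomial.C s * Polynomial.C s * h4

/-- the index set of the coefficients -/
abbrev Ix (N n d : ℕ) : Type := Fin N × {α : Fin n →₀ ℕ // α.degree ≤ d}

instance finite_Ix (N n d : ℕ) : Finite (Ix N n d) := by
  have h : Finite {α : Fin n →₀ ℕ // α.degree ≤ d} := by
    refine Finite.of_injective (β := Fin n → Fin (d + 1)) (fun α i => ⟨α.1 i, ?_⟩) ?_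
    · exact Nat.lt_succ_of_le ((Finsupp.le_degree i α.1).trans α.2)
    · intro α β h
      refine Subtype.ext (Finsupp.ext fun i => ?_)
      have h1 := congrFun h i
      exact congrArg Fin.val h1
  infer_instance

/-- the coefficients -/
def cofA {L : Type} [CommRing L] (d : ℕ) (f : Fin N → MvPolynomial (Fin n) L) : Ix N n d → L :=
  fun x => coeff x.2.1 (f x.1)

theorem coeff_hmg {L : Type} [CommRing L] (d : ℕ) (F : MvPolynomial (Fin n) L)
    (β : Fin (n + 1) →₀ ℕ) (hβ : β.degree = d) :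
    coeff β (hmg d F) = coeff (Finsupp.tail β) F := by
  classical
  unfold hmg
  rw [coeff_sum]
  have hdeg : β 0 + ∑ i, Finsupp.tail β i = d := by
    rw [← hβ, Finsupp.degree_eq_sum, Fin.sum_univ_succ]
    rfl
  have h1 : ∀ α : Fin n →₀ ℕ, (Finsupp.cons (d - ∑ i, α i) α = β) ↔ α = Finsupp.tail β := by
    intro α
    constructor
    · rintro rfl
      rw [Finsupp.tail_cons]
    · rintro rfl
      have : d - ∑ i, Finsupp.tail β i = β 0 := by omega
      rw [this, Finsupp.cons_tail]
  simp_rw [coeff_monomial, h1]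
  rw [Finset.sum_ite_eq']
  split_ifs with h
  · rfl
  · exact (notMem_support_iff.1 h).symm

theorem hA_cof_hmg (d : ℕ) (f : Fin N → MvPolynomial (Fin n) Qbar) :
    hA (cof (fun _ : Fin N => d) (fun i => hmg d (f i))) ≤ hA (cofA d f) := by
  classical
  let g : Option (CI n (fun _ : Fin N => d)) → Option (Ix N n d) := fun o =>
    o.map (fun x => (x.1, ⟨Finsupp.tail x.2.1, by
      have h1 : x.2.1.degree = d := x.2.2
      have h2 : x.2.1.degree = x.2.1 0 + (Finsupp.tail x.2.1).degree := by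
        rw [Finsupp.degree_eq_sum, Finsupp.degree_eq_sum, Fin.sum_univ_succ]
        rfl
      omega⟩))
  have h1 := absLogHeight_comp_le g (fun o : Option (Ix N n d) => o.elim (1 : Qbar) (cofA d f))
  refine le_trans (le_of_eq ?_) h1
  unfold hA
  congr 1
  funext o
  cases o with
  | none => rfl
  | some x =>
    show coeff x.2.1 (hmg d (f x.1)) = coeff (Finsupp.tail x.2.1) (f x.1)
    exact coeff_hmg d _ _ x.2.2

/-- **Heights, all affine varieties without punctured lines.** -/
theorem aff_heights (n N d r : ℕ) (Γ : Subgroup Qbarˣ) (hΓ : Γ.FG) :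
    ∃ B : ℝ, 0 ≤ B ∧ ∀ (f : Fin N → MvPolynomial (Fin n) Qbar) (u : Fin r → Qbarˣ)
      (V : Fin r → Fin n → Qbar), (∀ i, (f i).totalDegree ≤ d) → NoCurveA r d f →
      (∀ j, u j ∈ DivHull Γ) → (∀ i, aeval (fun a => ∑ j, (u j : Qbar) * V j a) (f i) = 0) →
      hA (fun a => ∑ j, (u j : Qbar) * V j a) ≤ B * (1 + hA (cofA d f) + hAV V) := by
  classical
  obtain ⟨C, hC⟩ := mult_boundS (r := r + 1) (uF n (fun _ : Fin N => d))
    (fun i => ⟨d, uF_homogeneous (fun _ : Fin N => d) i⟩)
    (X 0) ⟨1, isHomogeneous_X _ _⟩ (TT r n)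
    {a | ∃ f : Fin N → MvPolynomial (Fin n) Qbar, (∀ i, (f i).totalDegree ≤ d) ∧ NoCurveA r d f ∧
      ∀ i, fam a (uF n (fun _ : Fin N => d) i) = hmg d (f i)}
    (by
      rintro a ⟨f, hfd, hno, hfa⟩ c l hT hz hne
      simp only [hfa] at hz
      unfold fam
      rw [map_X, eval_X]
      exact patternL d f hfd hno c l hT hz hne) Γ hΓ
  refine ⟨|C| + (r + 1) + 1, by positivity, fun f u V hfd hno hu hxo => ?_⟩
  have hx := psum_hom u V
  have hfam : ∀ i, fam (cof (fun _ : Fin N => d) (fun i => hmg d (f i)))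
      (uF n (fun _ : Fin N => d) i) = hmg d (f i) := fun i =>
    fam_uF (fun _ : Fin N => d) (fun i => hmg d (f i)) (fun i => hmg_homog d _ (hfd i)) i
  have hon : OnOff (fun i => fam (cof (fun _ : Fin N => d) (fun i => hmg d (f i)))
        (uF n (fun _ : Fin N => d) i))
      (fam (cof (fun _ : Fin N => d) (fun i => hmg d (f i)))
        (X 0 : MvPolynomial (Fin (n + 1)) (MvPolynomial (CI n (fun _ : Fin N => d)) ℤ)))
      (Y215.SK.psum Finset.univ (homU u) (homV V)) := by
    rw [hx]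
    refine ⟨cons_one_ne _, fun i => ?_, ?_⟩
    · show aeval _ (fam (cof (fun _ : Fin N => d) (fun i => hmg d (f i)))
        (uF n (fun _ : Fin N => d) i)) = 0
      rw [hfam, cons_homA d _ (hfd i)]
      exact hxo i
    · unfold fam
      rw [map_X, aeval_X, Fin.cons_zero]
      exact one_ne_zero
  obtain ⟨J, hJ, hh⟩ := hC (cof (fun _ : Fin N => d) (fun i => hmg d (f i)))
    ⟨f, hfd, hno, hfam⟩ (homU u) (homV V) (fun j i h => homV_zero V j i h)
    (homU_hull Γ u hu) hon
  obtain ⟨c, hc, hc2⟩ := good_prop J (homU u) (homV V) hJ hon.1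
  have h3 := psum_height J (homU u) (homV V)
  rw [hc2, absLogHeight_smul _ hc, hx] at h3
  have h4 := hA_le_cons (fun i => ∑ j, (u j : Qbar) * V j i)
  have h5 := hV_homV V
  have h6 : 0 ≤ hV (homV V) := absLogHeight_nonneg _
  have ha0 := hA_nonneg (cof (fun _ : Fin N => d) (fun i => hmg d (f i)))
  have ha1 := hA_cof_hmg d f
  have h7 : C * (1 + hA (cof (fun _ : Fin N => d) (fun i => hmg d (f i))) + hV (homV V)) ≤
      |C| * (1 + hA (cofA d f) + hAV V) :=
    mul_le_mul (le_abs_self C) (by linarith) (by linarith) (abs_nonneg C)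
  have h8 : (0 : ℝ) ≤ r := Nat.cast_nonneg r
  have h9 := hAV_nonneg V
  have h10 := hA_nonneg (cofA d f)
  push_cast at h3
  nlinarith [mul_nonneg h8 h9, mul_nonneg h8 h10]

/-- the points over `L` on `f = 0` of the form `∑ u_j s_j V_j`, `u_j` with a power in `Γ` and
`h(1 : s) < ε` -/
def nearAff {L : Type} [Field L] (ι : Qbar →+* L) (f : Fin N → MvPolynomial (Fin n) L)
    (Γ : Subgroup Qbarˣ) (ε : ℝ) (V : Fin r → Fin n → L) : Set (Fin n → L) :=
  {x | (∀ i, eval x (f i) = 0) ∧ ∃ (u : Fin r → Qbarˣ) (s : Fin r → Qbar),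
    (∀ j, u j ∈ DivHull Γ) ∧ hA s < ε ∧ ∀ a, x a = ∑ j, ι (u j * s j) * V j a}

/-- **Number of points, all affine varieties without punctured lines.** -/
theorem aff_count (Γ : Subgroup Qbarˣ) (hΓ : Γ.FG) (d r : ℕ) (hd : 1 ≤ d) :
    ∃ M : ℕ, ∀ (n N : ℕ) (L : Type) [Field L] (ι : Qbar →+* L)
      (f : Fin N → MvPolynomial (Fin n) L) (_ : ∀ i, (f i).totalDegree ≤ d)
      (_ : NoCurveA r d f) (V : Fin r → Fin n → L),
      (nearAff ι f Γ (epsU d (r + 1) / d) V).encard ≤ (M : ℕ∞) := by
  classical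
  obtain ⟨M, hM⟩ := card_nearOff Γ hΓ d (r + 1) hd
  refine ⟨M, fun n N L _ ι f hfd hno V => ?_⟩
  let hVL : Fin (r + 1) → Fin (n + 1) → L := Fin.cons (Fin.cons 1 (fun _ => 0)) (fun j => Fin.cons 0 (V j))
  have h1 := hM n N L ι (fun i => hmg d (f i)) (fun i => ⟨d, le_rfl, hmg_homog d _ (hfd i)⟩)
    (X 0) (TT r n) (fun c l hT hz hne => by
      rw [eval_X]
      exact patternL d f hfd hno c l hT hz hne) hVL (fun j a h => by
        by_cases hj : j = 0
        · subst hj
          by_cases ha : a = 0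
          · subst ha
            exact absurd (Or.inl rfl) h
          · obtain ⟨a, rfl⟩ := Fin.exists_succ_eq.2 ha
            simp [hVL]
        · by_cases ha : a = 0
          · subst ha
            obtain ⟨j, rfl⟩ := Fin.exists_succ_eq.2 hj
            simp [hVL]
          · exact absurd (Or.inr ⟨hj, ha⟩) h)
  have hcn : ∀ x : Fin n → L, (Fin.cons 1 x : Fin (n + 1) → L) ≠ 0 := cons_one_ne
  let θ : (Fin n → L) → Projectivization L (Fin (n + 1) → L) := fun x =>
    Projectivization.mk L (Fin.cons 1 x : Fin (n + 1) → L) (hcn x)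
  have hinj : Function.Injective θ := by
    intro x y hxy
    obtain ⟨c, hc⟩ := (Projectivization.mk_eq_mk_iff' L _ _ (hcn x) (hcn y)).1 hxy
    have h0 := congrFun hc 0
    rw [Pi.smul_apply, Fin.cons_zero, Fin.cons_zero, smul_eq_mul, mul_one] at h0
    rw [h0, one_smul] at hc
    funext i
    have := congrFun hc i.succ
    rw [Fin.cons_succ, Fin.cons_succ] at this
    exact this.symm
  have hmaps : θ '' nearAff ι f Γ (epsU d (r + 1) / d) V ⊆
      UN.nearOff ι (fun i => hmg d (f i)) (X 0) Γ (epsU d (r + 1) / d) hVL := by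
    rintro _ ⟨x, ⟨hxo, u, s, hu, hs, hx⟩, rfl⟩
    have e3 : pt ι hVL (fun j => (homU u j : Qbar) * (Fin.cons 1 s : Fin (r + 1) → Qbar) j) =
        (Fin.cons 1 x : Fin (n + 1) → L) := by
      funext i
      unfold Pool.Agent.Y215.SP.pt
      rw [Fin.sum_univ_succ]
      refine Fin.cases ?_ (fun i => ?_) i
      · simp [homU, hVL]
      · simp only [homU, hVL, Fin.cons_zero, Fin.cons_succ, mul_zero, zero_add]
        rw [hx i]
    refine ⟨fun j => (homU u j : Qbar) * (Fin.cons 1 s : Fin (r + 1) → Qbar) j,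
      ⟨homU u, Fin.cons 1 s, homU_hull Γ u hu, lt_of_le_of_lt (cons_le_hA s) hs,
        fun j => rfl⟩, fun i => ?_, ?_, ?_⟩
    · rw [e3, ← UN.aeval_eval]
      rw [cons_homA d _ (hfd i), UN.aeval_eval]
      exact hxo i
    · rw [e3, eval_X, Fin.cons_zero]
      exact one_ne_zero
    · have h2 : pt ι hVL (fun j => (homU u j : Qbar) * (Fin.cons 1 s : Fin (r + 1) → Qbar) j) ≠ 0 := by
        rw [e3]
        exact hcn x
      exact ⟨h2, Pool.Agent.Y215.SP.mk_congr (hcn x) h2 e3.symm⟩
  rw [← hinj.encard_image]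
  exact (Set.encard_le_encard hmaps).trans h1

/-- no nonconstant solutions in Laurent polynomials -/
theorem noCurveA_of {L : Type} [Field L] (d : ℕ) (f : Fin N → MvPolynomial (Fin n) L)
    (hd : ∀ i, (f i).totalDegree ≤ d)
    (h : ∀ v : Fin n → LaurentPolynomial L, (∀ i, aeval v (f i) = 0) →
      ∀ a, ∃ b : L, v a = LaurentPolynomial.C b) : NoCurveA r d f := by
  classical
  intro c l hz
  let tL : Polynomial L →+* LaurentPolynomial L := (Polynomial.toLaurent : Polynomial L →+* _)
  let s : LaurentPolynomial L := LaurentPolynomial.T (l 0 : ℤ)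
  let s' : LaurentPolynomial L := LaurentPolynomial.T (-(l 0 : ℤ))
  have hss : s * s' = 1 := by
    show LaurentPolynomial.T _ * LaurentPolynomial.T _ = 1
    rw [← LaurentPolynomial.T_add, add_neg_cancel, LaurentPolynomial.T_zero]
  have htX : ∀ m : ℕ, tL (Polynomial.X ^ m) = LaurentPolynomial.T (m : ℤ) := fun m =>
    Polynomial.toLaurent_X_pow m
  let v : Fin n → LaurentPolynomial L := fun a => s' * tL (cur (homC c) l a.succ)
  have hv : ∀ i, aeval v (f i) = 0 := by
    intro i
    have h1 := congrArg tL (hz i)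
    rw [map_zero, aeval_def] at h1
    have h2 : tL (eval₂ (algebraMap L (Polynomial L)) (cur (homC c) l) (hmg d (f i))) =
        eval₂ (algebraMap L (LaurentPolynomial L)) (fun j => tL (cur (homC c) l j))
          (hmg d (f i)) := by
      rw [hom_eval₂]
      congr 1
      refine RingHom.ext fun b => ?_
      exact Polynomial.toLaurent_C b
    rw [h2] at h1
    have h3 : (fun j => tL (cur (homC c) l j)) =
        (Fin.cons s (fun a => s * v a) : Fin (n + 1) → LaurentPolynomial L) := by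
      funext j
      refine Fin.cases ?_ (fun a => ?_) j
      · rw [cur_homC_zero, htX]
        rfl
      · show tL (cur (homC c) l a.succ) = s * (s' * tL (cur (homC c) l a.succ))
        rw [← mul_assoc, hss, one_mul]
    rw [h3, hmg_eval _ d (f i) (hd i)] at h1
    have h4 : s' ^ d * (s ^ d * eval₂ (algebraMap L (LaurentPolynomial L)) v (f i)) = 0 := by
      rw [h1, mul_zero]
    rw [← mul_assoc, ← mul_pow, mul_comm s' s, hss, one_pow, one_mul] at h4
    exact h4
  choose b hb using h v hv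
  have hinjL : Function.Injective tL := Polynomial.toLaurent_injective
  have hcur : ∀ j : Fin (n + 1), ∃ z : L, cur (homC c) l j = Polynomial.C z * Polynomial.X ^ (l 0) := by
    intro j
    refine Fin.cases ?_ (fun a => ?_) j
    · exact ⟨1, by rw [cur_homC_zero, Polynomial.C_1, one_mul]⟩
    · refine ⟨b a, hinjL ?_⟩
      have h1 : s * v a = tL (cur (homC c) l a.succ) := by
        show s * (s' * tL (cur (homC c) l a.succ)) = _
        rw [← mul_assoc, hss, one_mul]
      rw [← h1, hb, map_mul, htX]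
      have h2 : tL (Polynomial.C (b a)) = LaurentPolynomial.C (b a) := Polynomial.toLaurent_C _
      rw [h2, mul_comm]
  choose z hz' using hcur
  have hsum : ∀ j, ∑ j', homC c j' j = z j := by
    intro j
    have h1 := Pool.Agent.H533R3.SL.cur_eval_one (homC c) l j
    rw [hz'] at h1
    rw [← h1]
    simp
  intro i i'
  rw [hz' i, hz' i', hsum, hsum]
  ring

/-- no nonconstant rational curve -/
theorem noCurve_of {L : Type} [Field L] (F : Fin N → MvPolynomial (Fin (n + 1)) L)
    (h : ∀ p : Fin (n + 1) → Polynomial L, (∀ i, aeval p (F i) = 0) →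
      ∃ (g : Polynomial L) (b : Fin (n + 1) → L), ∀ i, p i = g * Polynomial.C (b i)) :
    NoCurve r F := by
  intro c l hz i i'
  obtain ⟨g, b, hgb⟩ := h (cur c l) hz
  have hsum : ∀ j, ∑ j', c j' j = g.eval 1 * b j := by
    intro j
    rw [← Pool.Agent.H533R3.SL.cur_eval_one c l j, hgb j]
    simp
  rw [hgb i, hgb i', hsum, hsum, Polynomial.C_mul, Polynomial.C_mul]
  ring

end Pool.Agent.Q51.UV
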