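import Mathlib
import Pool.Agent.Q51.UV.Uni
import Pool.Agent.Q51.UF.ConvK

set_option autoImplicit false
set_option linter.unusedSectionVars false

/-!
# Punctured lines give infinitely many points, heights of integral vectors
-/

namespace Pool.Agent.Q51.UV

open Finset MvPolynomial
open Pool.Agent.Helper259.AbsHt Pool.Agent.Y215.AF
open Pool.Agent.Q51.UF.K (good_infinite)

/-- the height of an integral vector -/
theorem hA_int {τ : Type} [Fintype τ] (x : τ → ℤ) :
    hA (fun i => (x i : Qbar)) =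
      Real.log ((⨆ o : Option τ, |o.elim (1 : ℤ) x| : ℤ) : ℝ) := by
  classical
  have hg : Finset.univ.gcd (fun o : Option τ => o.elim (1 : ℤ) x) = 1 := by
    have h1 : Finset.univ.gcd (fun o : Option τ => o.elim (1 : ℤ) x) ∣ 1 :=
      Finset.gcd_dvd (f := fun o : Option τ => o.elim (1 : ℤ) x) (Finset.mem_univ none)
    have h2 := Int.isUnit_iff.1 (isUnit_of_dvd_one h1)
    rcases h2 with h2 | h2
    · exact h2
    · have h3 : normalize (Finset.univ.gcd (fun o : Option τ => o.elim (1 : ℤ) x)) =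
          Finset.univ.gcd (fun o : Option τ => o.elim (1 : ℤ) x) := Finset.normalize_gcd
      have h4 := Int.nonneg_of_normalize_eq_self h3
      rw [h2] at h4
      norm_num at h4
  rw [← absLogHeight_int (fun o : Option τ => o.elim (1 : ℤ) x) hg]
  unfold hA
  congr 1
  funext o
  cases o with
  | none => simp
  | some i => simp

theorem hA_int_le {τ : Type} [Fintype τ] (x : τ → ℤ) (H : ℝ) (hH : 1 ≤ H)
    (hx : ∀ i, |(x i : ℝ)| ≤ H) : hA (fun i => (x i : Qbar)) ≤ Real.log H := by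
  classical
  rw [hA_int]
  obtain ⟨o, ho⟩ := exists_eq_ciSup_of_finite (f := fun o : Option τ => |o.elim (1 : ℤ) x|)
  rw [← ho]
  have h1 : (1 : ℤ) ≤ |o.elim (1 : ℤ) x| := by
    rw [ho]
    exact le_ciSup (f := fun o : Option τ => |o.elim (1 : ℤ) x|) (Finite.bddAbove_range _) none
  refine Real.log_le_log (by exact_mod_cast (by omega : (0 : ℤ) < |o.elim (1 : ℤ) x|)) ?_
  cases o with
  | none => simpa using hH
  | some i =>
    push_cast
    exact hx i

theorem le_hA_int {τ : Type} [Fintype τ] (x : τ → ℤ) (i : τ) (hi : x i ≠ 0) :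
    Real.log |(x i : ℝ)| ≤ hA (fun i => (x i : Qbar)) := by
  classical
  rw [hA_int]
  have h1 : |x i| ≤ ⨆ o : Option τ, |o.elim (1 : ℤ) x| :=
    le_ciSup (f := fun o : Option τ => |o.elim (1 : ℤ) x|) (Finite.bddAbove_range _) (some i)
  have h2 : (0 : ℤ) < |x i| := abs_pos.2 hi
  have h3 : |(x i : ℝ)| = ((|x i| : ℤ) : ℝ) := by push_cast; rfl
  rw [h3]
  exact Real.log_le_log (by exact_mod_cast h2) (by exact_mod_cast h1)

/-- the points on `f = 0` with the coordinates `∑ 2 ^ (e j) V j` -/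
def powersOfTwo {n N r : ℕ} (f : Fin N → MvPolynomial (Fin n) Qbar) (V : Fin r → Fin n → Qbar) :
    Set (Fin n → Qbar) :=
  {x | (∀ i, eval x (f i) = 0) ∧ ∃ e : Fin r → ℤ, ∀ a, x a = ∑ j, (2 : Qbar) ^ e j * V j a}

/-- a nonconstant solution in Laurent polynomials gives infinitely many points -/
theorem infinite_of_laurent {n N : ℕ} (f : Fin N → MvPolynomial (Fin n) Qbar)
    (v : Fin n → LaurentPolynomial Qbar) (hv : ∀ i, aeval v (f i) = 0) (a : Fin n)
    (ha : ∀ b : Qbar, v a ≠ LaurentPolynomial.C b) :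
    ∃ (r : ℕ) (V : Fin r → Fin n → Qbar), (powersOfTwo f V).Infinite := by
  classical
  choose m q hq using fun i => LaurentPolynomial.exists_T_pow (v i)
  let K : ℕ := ∑ i, m i
  have hmK : ∀ i, m i ≤ K := fun i => Finset.single_le_sum (f := m) (fun _ _ => Nat.zero_le _)
    (Finset.mem_univ i)
  let p : Fin n → Polynomial Qbar := fun i => q i * Polynomial.X ^ (K - m i)
  have hp : ∀ i, Polynomial.toLaurent (p i) = v i * LaurentPolynomial.T (K : ℤ) := by
    intro i
    show Polynomial.toLaurent (q i * Polynomial.X ^ (K - m i)) = _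
    rw [map_mul, hq, Polynomial.toLaurent_X_pow, mul_assoc, ← LaurentPolynomial.T_add]
    congr 2
    have := hmK i
    omega
  obtain ⟨r, hr⟩ : ∃ r : ℕ, ∀ i, (p i).natDegree < r := by
    refine ⟨∑ i, (p i).natDegree + 1, fun i => Nat.lt_succ_of_le ?_⟩
    exact Finset.single_le_sum (f := fun i => (p i).natDegree) (fun _ _ => Nat.zero_le _)
      (Finset.mem_univ i)
  let V : Fin r → Fin n → Qbar := fun j i => (p i).coeff j
  let two : Qbarˣ := Units.mk0 2 two_ne_zero
  let x : ℕ → Fin n → Qbar := fun t i => LaurentPolynomial.eval₂ (RingHom.id Qbar) (two ^ t) (v i)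
  have hxp : ∀ t i, x t i = (p i).eval ((2 : Qbar) ^ t) * ((2 : Qbar) ^ t) ^ (-(K : ℤ)) := by
    intro t i
    have h1 := congrArg (LaurentPolynomial.eval₂ (RingHom.id Qbar) (two ^ t)) (hp i)
    rw [LaurentPolynomial.eval₂_toLaurent, map_mul, LaurentPolynomial.eval₂_T] at h1
    have h2 : Polynomial.eval₂ (RingHom.id Qbar) (((two ^ t : Qbarˣ)) : Qbar) (p i) =
        (p i).eval ((2 : Qbar) ^ t) := by
      rw [Units.val_pow_eq_pow_val]
      rfl
    have h3 : (((two ^ t) ^ (K : ℤ) : Qbarˣ) : Qbar) = ((2 : Qbar) ^ t) ^ (K : ℤ) := by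
      rw [Units.val_zpow_eq_zpow_val, Units.val_pow_eq_pow_val]
      rfl
    rw [h2, h3] at h1
    show LaurentPolynomial.eval₂ (RingHom.id Qbar) (two ^ t) (v i) = _
    rw [h1, mul_assoc, ← zpow_add₀ (pow_ne_zero _ two_ne_zero), add_neg_cancel, zpow_zero,
      mul_one]
  refine ⟨r, V, fun hfin => ?_⟩
  have hmem : ∀ t, x t ∈ powersOfTwo f V := by
    intro t
    refine ⟨fun i => ?_, fun j => (t : ℤ) * ((j : ℕ) : ℤ) + (t : ℤ) * (-(K : ℤ)), fun b => ?_⟩
    · have h1 := congrArg (LaurentPolynomial.eval₂ (RingHom.id Qbar) (two ^ t)) (hv i)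
      rw [map_zero, aeval_def, hom_eval₂] at h1
      rw [← h1]
      have h2 : (LaurentPolynomial.eval₂ (RingHom.id Qbar) (two ^ t)).comp
          (algebraMap Qbar (LaurentPolynomial Qbar)) = RingHom.id Qbar := by
        refine RingHom.ext fun b => ?_
        exact LaurentPolynomial.eval₂_C (RingHom.id Qbar) (two ^ t) b
      rw [h2]
      rfl
    · rw [hxp]
      conv_lhs => rw [Polynomial.as_sum_range_C_mul_X_pow' (p b) (hr b)]
      rw [Polynomial.eval_finsetSum, Finset.sum_mul, Finset.sum_range]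
      refine Finset.sum_congr rfl fun j _ => ?_
      simp only [Polynomial.eval_mul, Polynomial.eval_C, Polynomial.eval_pow, Polynomial.eval_X]
      show (p b).coeff j * ((2 : Qbar) ^ t) ^ (j : ℕ) * ((2 : Qbar) ^ t) ^ (-(K : ℤ)) =
        (2 : Qbar) ^ ((t : ℤ) * ((j : ℕ) : ℤ) + (t : ℤ) * (-(K : ℤ))) * (p b).coeff j
      rw [zpow_add₀ two_ne_zero, zpow_mul, zpow_mul, zpow_natCast, zpow_natCast]
      ring
  let Y : Finset Qbar := (hfin.image fun y => y a).toFinset
  let g : Polynomial Qbar := ∏ y ∈ Y, (p a - Polynomial.C y * Polynomial.X ^ K)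
  have hg0 : ∀ t : ℕ, g.eval ((2 : Qbar) ^ t) = 0 := by
    intro t
    show (∏ y ∈ Y, (p a - Polynomial.C y * Polynomial.X ^ K)).eval ((2 : Qbar) ^ t) = 0
    rw [Polynomial.eval_prod]
    refine Finset.prod_eq_zero (i := x t a) ?_ ?_
    · rw [Set.Finite.mem_toFinset]
      exact ⟨x t, hmem t, rfl⟩
    · simp only [Polynomial.eval_sub, Polynomial.eval_mul, Polynomial.eval_C,
        Polynomial.eval_pow, Polynomial.eval_X]
      rw [hxp, mul_assoc, ← zpow_natCast ((2 : Qbar) ^ t) K,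
        ← zpow_add₀ (pow_ne_zero _ two_ne_zero), neg_add_cancel, zpow_zero, mul_one, sub_self]
  have hg : g = 0 := by
    by_contra h
    obtain ⟨t, ht⟩ := (good_infinite g h).nonempty
    exact ht (hg0 t)
  obtain ⟨y, -, hy⟩ := Finset.prod_eq_zero_iff.1 hg
  rw [sub_eq_zero] at hy
  apply ha y
  have h1 := hp a
  rw [hy, map_mul, Polynomial.toLaurent_X_pow, Polynomial.toLaurent_C] at h1
  exact ((LaurentPolynomial.isUnit_T (R := Qbar) (K : ℤ)).mul_right_cancel h1).symm

end Pool.Agent.Q51.UV
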